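import Pool.Agent.R758.CQ.Stage4

/-!
MP_b29168_gt. Every plane convex set of unit area is contained in a convex quadrilateral of area at
most `1.414213 < √2`.

Idea. Take `a, b, p, q ∈ K` with `(b - a) × (q - p)` maximal. After an affine map `K` lies in the
square `[-1, 1]²` and `a = (α, 1)`, `b = (α, -1)`, `p = (-1, β)`, `q = (1, β)`. The square and the
circumscribed quadrilateral with sides parallel to `a q b p` show the bound `√2`, and if the bound
`1.414213` fails, then the area of `K` is nearly `2√2`. Then (middle chords) `(0, ±1)`, `(±1, 0)` are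
nearly in `K`, the circumscribed rectangle with the directions `(1, ±1)` has nearly the area `4`, the
middles of its sides are nearly in `K`, so that `K` is nearly an octagon, and a quadrilateral with two
sides of the square and two slightly rotated sides has the area `3.9655`.
-/

set_option autoImplicit false

open MeasureTheory Set
open scoped ENNReal

namespace Pool.Agent.Results.MP_b29168_gt.BelowSqrtTwo

open Pool.Agent.R758.CQ (P mk0 mk1 ext2 eta2 Circ fm fmA fm_pre vol_pre convex_pre compact_pre circ_pre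
  Nm nm_circ tri_lb c0)
open Pool.Agent.Helper717.Hull1 (orient)

/-- The Euclidean plane. -/
abbrev E2 := EuclideanSpace ℝ (Fin 2)

/-- A convex quadrilateral (possibly degenerate): the convex hull of four points. -/
def IsQuadrilateral (Q : Set E2) : Prop := ∃ a b c d : E2, Q = convexHull ℝ {a, b, c, d}

lemma exists_nm {K : Set E2} (hc : IsCompact K) (hi : (interior K).Nonempty)
    (hv : Convex ℝ K) : ∃ p q r s u v : ℝ, p * s - q * r ≠ 0 ∧ ∃ α β, Nm (fm p q r s u v ⁻¹' K) α β := by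
  obtain ⟨x0, hx0⟩ := hi
  have hxK : x0 ∈ K := interior_subset hx0
  have hcont : Continuous (fun z : E2 × E2 × E2 × E2 =>
      (z.2.1 0 - z.1 0) * (z.2.2.2 1 - z.2.2.1 1) - (z.2.1 1 - z.1 1) * (z.2.2.2 0 - z.2.2.1 0)) := by
    fun_prop
  obtain ⟨⟨a, b, p, q⟩, ⟨ha, hb, hp, hq⟩, hmax⟩ := (hc.prod (hc.prod (hc.prod hc))).exists_isMaxOn
    ⟨(x0, x0, x0, x0), hxK, hxK, hxK, hxK⟩ hcont.continuousOn
  have hmax' : ∀ a' ∈ K, ∀ b' ∈ K, ∀ p' ∈ K, ∀ q' ∈ K,
      (b' 0 - a' 0) * (q' 1 - p' 1) - (b' 1 - a' 1) * (q' 0 - p' 0) ≤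
        (b 0 - a 0) * (q 1 - p 1) - (b 1 - a 1) * (q 0 - p 0) := by
    intro a' ha' b' hb' p' hp' q' hq'
    exact hmax (a := (a', b', p', q')) ⟨ha', hb', hp', hq'⟩
  obtain ⟨ε, hε, hball⟩ := Metric.mem_nhds_iff.1 (mem_interior_iff_mem_nhds.1 hx0)
  have hb1 : P (x0 0 + ε / 2) (x0 1) ∈ K := by
    apply hball
    rw [Metric.mem_ball, EuclideanSpace.dist_eq, Fin.sum_univ_two]
    simp only [mk0, mk1, Real.dist_eq, sub_self, abs_zero]
    rw [show x0 0 + ε / 2 - x0 0 = ε / 2 by ring, abs_of_pos (by positivity),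
      show (ε / 2) ^ 2 + (0 : ℝ) ^ 2 = (ε / 2) ^ 2 by ring, Real.sqrt_sq (by positivity)]
    linarith
  have hb2 : P (x0 0) (x0 1 + ε / 2) ∈ K := by
    apply hball
    rw [Metric.mem_ball, EuclideanSpace.dist_eq, Fin.sum_univ_two]
    simp only [mk0, mk1, Real.dist_eq, sub_self, abs_zero]
    rw [show x0 1 + ε / 2 - x0 1 = ε / 2 by ring, abs_of_pos (by positivity),
      show (0 : ℝ) ^ 2 + (ε / 2) ^ 2 = (ε / 2) ^ 2 by ring, Real.sqrt_sq (by positivity)]
    linarith
  have hpos : 0 < (b 0 - a 0) * (q 1 - p 1) - (b 1 - a 1) * (q 0 - p 0) := by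
    have := hmax' x0 hxK _ hb1 x0 hxK _ hb2
    simp only [mk0, mk1] at this
    have h2 : 0 < ε / 2 * (ε / 2) := by positivity
    nlinarith
  obtain ⟨u0, hu0⟩ : ∃ t, t = (q 0 - p 0) / 2 := ⟨_, rfl⟩
  obtain ⟨u1, hu1⟩ : ∃ t, t = (q 1 - p 1) / 2 := ⟨_, rfl⟩
  obtain ⟨w0, hw0⟩ : ∃ t, t = (a 0 - b 0) / 2 := ⟨_, rfl⟩
  obtain ⟨w1, hw1⟩ : ∃ t, t = (a 1 - b 1) / 2 := ⟨_, rfl⟩
  obtain ⟨D, hD⟩ : ∃ t, t = u0 * w1 - w0 * u1 := ⟨_, rfl⟩
  have hD4 : (b 0 - a 0) * (q 1 - p 1) - (b 1 - a 1) * (q 0 - p 0) = 4 * D := by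
    rw [hD, hu0, hu1, hw0, hw1]; ring
  have hDp : 0 < D := by rw [hD4] at hpos; linarith
  obtain ⟨α, hα⟩ : ∃ t, t = ((a 0 - p 0) * w1 - (a 1 - p 1) * w0) / D - 1 := ⟨_, rfl⟩
  obtain ⟨β, hβ⟩ : ∃ t, t = 1 - (u0 * (a 1 - p 1) - u1 * (a 0 - p 0)) / D := ⟨_, rfl⟩
  have hα' : (1 + α) * D = (a 0 - p 0) * w1 - (a 1 - p 1) * w0 := by rw [hα]; field_simp; ring
  have hβ' : (1 - β) * D = u0 * (a 1 - p 1) - u1 * (a 0 - p 0) := by rw [hβ]; field_simp; ring
  have hp0 : p 0 = a 0 - (1 + α) * u0 - (1 - β) * w0 := by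
    have : D * (a 0 - p 0) = D * ((1 + α) * u0 + (1 - β) * w0) := by
      rw [show D * ((1 + α) * u0 + (1 - β) * w0) = (1 + α) * D * u0 + (1 - β) * D * w0 by ring,
        hα', hβ', hD]; ring
    have := mul_left_cancel₀ hDp.ne' this
    linarith
  have hp1 : p 1 = a 1 - (1 + α) * u1 - (1 - β) * w1 := by
    have : D * (a 1 - p 1) = D * ((1 + α) * u1 + (1 - β) * w1) := by
      rw [show D * ((1 + α) * u1 + (1 - β) * w1) = (1 + α) * D * u1 + (1 - β) * D * w1 by ring,
        hα', hβ', hD]; ring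
    have := mul_left_cancel₀ hDp.ne' this
    linarith
  have hq0 : q 0 = p 0 + 2 * u0 := by rw [hu0]; ring
  have hq1 : q 1 = p 1 + 2 * u1 := by rw [hu1]; ring
  have hb0' : b 0 = a 0 - 2 * w0 := by rw [hw0]; ring
  have hb1' : b 1 = a 1 - 2 * w1 := by rw [hw1]; ring
  clear hu0 hu1 hw0 hw1
  refine ⟨u0, w0, u1, w1, a 0 - α * u0 - w0, a 1 - α * u1 - w1, by rw [← hD]; exact hDp.ne', α, β, ?_⟩
  have hf : ∀ x : E2, fm u0 w0 u1 w1 (a 0 - α * u0 - w0) (a 1 - α * u1 - w1) x =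
      P (u0 * x 0 + w0 * x 1 + (a 0 - α * u0 - w0)) (u1 * x 0 + w1 * x 1 + (a 1 - α * u1 - w1)) :=
    fun x => rfl
  rw [hD4] at hmax'
  have hDne : u0 * w1 - w0 * u1 ≠ 0 := by rw [← hD]; exact hDp.ne'
  refine ⟨compact_pre _ _ _ _ _ _ hDne hc, convex_pre _ _ _ _ _ _ hv, ?_, ?_, ?_, ?_, ?_⟩
  · intro x hx
    rw [mem_preimage, hf] at hx
    have e1 := hmax' _ hx b hb p hp q hq
    have e2 := hmax' a ha _ hx p hp q hq
    have e3 := hmax' a ha b hb _ hx q hq
    have e4 := hmax' a ha b hb p hp _ hx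
    simp only [mk0, mk1] at e1 e2 e3 e4
    rw [hq0, hq1, hb0', hb1', hp0, hp1] at e1
    rw [hq0, hq1, hp0, hp1] at e2
    rw [hq0, hq1, hb0', hb1', hp0, hp1] at e3
    rw [hb0', hb1', hp0, hp1] at e4
    have f1 : D * (1 + x 1) ≤ D * 2 := by rw [hD] at e1 ⊢; nlinarith
    have f2 : D * (1 - x 1) ≤ D * 2 := by rw [hD] at e2 ⊢; nlinarith
    have f3 : D * (1 - x 0) ≤ D * 2 := by rw [hD] at e3 ⊢; nlinarith
    have f4 : D * (1 + x 0) ≤ D * 2 := by rw [hD] at e4 ⊢; nlinarith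
    have g1 := le_of_mul_le_mul_left f1 hDp
    have g2 := le_of_mul_le_mul_left f2 hDp
    have g3 := le_of_mul_le_mul_left f3 hDp
    have g4 := le_of_mul_le_mul_left f4 hDp
    refine ⟨?_, ?_, ?_, ?_⟩ <;> linarith
  · rw [mem_preimage, hf]
    convert ha using 1
    apply ext2 <;> simp only [mk0, mk1] <;> ring
  · rw [mem_preimage, hf]
    convert hb using 1
    apply ext2 <;> simp only [mk0, mk1]
    · rw [hb0']; ring
    · rw [hb1']; ring
  · rw [mem_preimage, hf]
    convert hp using 1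
    apply ext2 <;> simp only [mk0, mk1]
    · rw [hp0]; ring
    · rw [hp1]; ring
  · rw [mem_preimage, hf]
    convert hq using 1
    apply ext2 <;> simp only [mk0, mk1]
    · rw [hq0, hp0]; ring
    · rw [hq1, hp1]; ring

lemma circ_compact {K : Set E2} (hc : IsCompact K) (hv : Convex ℝ K) (hi : (interior K).Nonempty)
    (hK : volume K = 1) : Circ K c0 := by
  obtain ⟨p, q, r, s, u, v, hD, α, β, h⟩ := exists_nm hc hi hv
  have hvol := vol_pre p q r s u v hD K
  rw [hK, mul_one] at hvol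
  have h1 := nm_circ h hvol (abs_nonneg _)
  have h2 := circ_pre p q r s u v hD h1
  apply h2.mono
  have hp : 0 < |p * s - q * r| := abs_pos.2 hD
  rw [abs_inv]
  field_simp
  exact le_rfl

/-- a convex set of finite area with nonempty interior is bounded -/
lemma bounded {K : Set E2} (hv : Convex ℝ K) (hi : (interior K).Nonempty) (hK : volume K = 1) :
    Bornology.IsBounded K := by
  obtain ⟨x0, hx0⟩ := hi
  obtain ⟨ε, hε, hball⟩ := Metric.mem_nhds_iff.1 (mem_interior_iff_mem_nhds.1 hx0)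
  have hb : ∀ s t : ℝ, s ^ 2 + t ^ 2 = (ε / 2) ^ 2 → P (x0 0 + s) (x0 1 + t) ∈ K := by
    intro s t hst
    apply hball
    rw [Metric.mem_ball, EuclideanSpace.dist_eq, Fin.sum_univ_two]
    simp only [mk0, mk1, Real.dist_eq, add_sub_cancel_left, sq_abs]
    rw [hst, Real.sqrt_sq (by positivity)]
    linarith
  have h1 := hb (ε / 2) 0 (by ring)
  have h2 := hb (-(ε / 2)) 0 (by ring)
  have h3 := hb 0 (ε / 2) (by ring)
  have h4 := hb 0 (-(ε / 2)) (by ring)
  have tri : ∀ a b c : E2, a ∈ K → b ∈ K → c ∈ K → orient a b c ≤ 2 := by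
    intro a b c ha hb hc
    by_contra hlt
    push Not at hlt
    have := tri_lb K a b c (by linarith) (convexHull_min (by rintro x (rfl | rfl | rfl) <;> assumption) hv)
    rw [hK, ENNReal.ofReal_le_one] at this
    linarith
  rw [Metric.isBounded_iff_subset_closedBall x0]
  refine ⟨4 / ε, ?_⟩
  intro y hy
  have e1 := tri _ _ _ h2 h1 hy
  have e2 := tri _ _ _ h1 h2 hy
  have e3 := tri _ _ _ h4 h3 hy
  have e4 := tri _ _ _ h3 h4 hy
  simp only [orient, mk0, mk1] at e1 e2 e3 e4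
  rw [Metric.mem_closedBall, EuclideanSpace.dist_eq, Fin.sum_univ_two]
  simp only [Real.dist_eq, sq_abs]
  have f1 : |ε * (y 1 - x0 1)| ≤ 2 := by rw [abs_le]; constructor <;> nlinarith
  have f2 : |ε * (y 0 - x0 0)| ≤ 2 := by rw [abs_le]; constructor <;> nlinarith
  rw [Real.sqrt_le_left (by positivity)]
  have g1 : (ε * (y 1 - x0 1)) ^ 2 ≤ 2 ^ 2 := by rw [← sq_abs]; exact pow_le_pow_left₀ (abs_nonneg _) f1 2
  have g2 : (ε * (y 0 - x0 0)) ^ 2 ≤ 2 ^ 2 := by rw [← sq_abs]; exact pow_le_pow_left₀ (abs_nonneg _) f2 2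
  rw [div_pow, le_div_iff₀ (by positivity)]
  nlinarith

/-- **Answer to both questions.** There is a constant `c < √2`, for example `c = 1.414213`, such that
every convex subset of the plane of area `1` is contained in a convex quadrilateral of area at
most `c`. -/
theorem result : ∃ c : ℝ, c = 1.414213 ∧ c < √2 ∧ ∀ K : Set E2, Convex ℝ K → volume K = 1 →
    ∃ Q : Set E2, IsQuadrilateral Q ∧ K ⊆ Q ∧ volume Q ≤ ENNReal.ofReal c := by
  refine ⟨1.414213, rfl, ?_, ?_⟩
  · rw [Real.lt_sqrt (by norm_num)]; norm_num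
  intro K hv hK
  have hfr : volume (frontier K) = 0 := hv.addHaar_frontier volume
  have hi : (interior K).Nonempty := by
    by_contra hne
    rw [not_nonempty_iff_eq_empty] at hne
    have hsub : K ⊆ frontier K := by
      rw [frontier, hne, Set.sdiff_empty]; exact subset_closure
    have := measure_mono_null hsub hfr
    rw [hK] at this
    exact one_ne_zero this
  have hcl : volume (closure K) = 1 := by
    apply le_antisymm
    · rw [closure_eq_self_union_frontier]
      refine (measure_union_le _ _).trans ?_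
      rw [hfr, hK, add_zero]
    · rw [← hK]; exact measure_mono subset_closure
  have hcpt : IsCompact (closure K) :=
    Metric.isCompact_of_isClosed_isBounded isClosed_closure (bounded hv hi hK).closure
  have hi' : (interior (closure K)).Nonempty := hi.mono (interior_mono subset_closure)
  obtain ⟨a, b, c, d, h1, h2⟩ := circ_compact hcpt hv.closure hi' hcl
  exact ⟨_, ⟨a, b, c, d, rfl⟩, subset_closure.trans h1, h2⟩

end Pool.Agent.Results.MP_b29168_gt.BelowSqrtTwo
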